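import Pool.Agent.H994.AP.Lat

/-!
# MP_2c7cbe_co, Q1 (Grünbaum–Shephard): there is no all-purpose tile

No polygon is the prototile both of a monohedral tiling whose symmetry group is of type p4m and of
one whose symmetry group is of type p6m.
-/

set_option autoImplicit false

open Set

namespace Pool.Agent.Results.MP_2c7cbe_co.NoAllPurposeTile

noncomputable section

/-- Polygons, more generally polygonal regions: compact sets with nonempty connected interior which
are the closure of their interior and whose boundary is contained in the union of finitely many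
segments. By the Jordan curve theorem every polygon (compact set bounded by a simple closed
polygonal curve) is one. -/
def Polygon (P : Set ℂ) : Prop :=
  IsCompact P ∧ (interior P).Nonempty ∧ IsPreconnected (interior P) ∧ P ⊆ closure (interior P) ∧
    ∃ s : Finset (ℂ × ℂ), frontier P ⊆ ⋃ q ∈ s, segment ℝ q.1 q.2

/-- `T` is a monohedral tiling of the plane with prototile `P` (reflected copies are allowed). -/
def IsTiling (P : Set ℂ) (T : Set (Set ℂ)) : Prop :=
  (∀ A ∈ T, ∃ g : ℂ ≃ᵢ ℂ, A = g '' P) ∧ ⋃₀ T = univ ∧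
    T.Pairwise (fun A B => Disjoint (interior A) (interior B))

/-- The symmetry group of `T`: the isometries `g` such that `g` and `g⁻¹` map every tile of `T` onto
a tile of `T`. -/
def Sym (T : Set (Set ℂ)) : Subgroup (ℂ ≃ᵢ ℂ) where
  carrier := {g | (∀ A ∈ T, (g : ℂ ≃ᵢ ℂ) '' A ∈ T) ∧ ∀ A ∈ T, (g⁻¹ : ℂ ≃ᵢ ℂ) '' A ∈ T}
  one_mem' := by
    constructor <;> intro A hA <;> simpa using hA
  mul_mem' := by
    rintro g h ⟨hg, hg'⟩ ⟨hh, hh'⟩
    constructor
    · intro A hA
      have := hg _ (hh A hA)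
      rw [image_image] at this
      exact this
    · intro A hA
      have := hh' _ (hg' A hA)
      rw [image_image] at this
      rw [mul_inv_rev]
      exact this
  inv_mem' := by
    rintro g ⟨hg, hg'⟩
    refine ⟨hg', ?_⟩
    rw [inv_inv]
    exact hg

/-- The images of some bounded set under the elements of `G` cover the plane. -/
def Cocompact (G : Subgroup (ℂ ≃ᵢ ℂ)) : Prop :=
  ∃ B : Set ℂ, Bornology.IsBounded B ∧ ∀ z : ℂ, ∃ g ∈ G, ∃ w ∈ B, g w = z

/-- Wallpaper groups (plane crystallographic groups): cocompact, and every point `p` has a positive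
distance from the other points of its orbit. -/
def IsWallpaper (G : Subgroup (ℂ ≃ᵢ ℂ)) : Prop :=
  Cocompact G ∧ ∀ p : ℂ, ∃ δ > 0, ∀ g ∈ G, g p ≠ p → δ ≤ dist p (g p)

/-- `P` realizes the (isomorphism) type of `G`: the symmetry group of some monohedral tiling with
prototile `P` is a wallpaper group isomorphic to `G`. -/
def Realizes (P : Set ℂ) (G : Subgroup (ℂ ≃ᵢ ℂ)) : Prop :=
  ∃ T : Set (Set ℂ), IsTiling P T ∧ IsWallpaper (Sym T) ∧ Nonempty (Sym T ≃* G)

/-- All-purpose tiles: every type of wallpaper group is realized. -/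
def AllPurpose (P : Set ℂ) : Prop := ∀ G : Subgroup (ℂ ≃ᵢ ℂ), IsWallpaper G → Realizes P G

/-- The group of all isometries mapping the lattice `ℤ + ℤ τ` onto itself. -/
def latticeGroup (τ : ℂ) : Subgroup (ℂ ≃ᵢ ℂ) where
  carrier := {g | g '' {z : ℂ | ∃ a b : ℤ, z = a + b * τ} = {z : ℂ | ∃ a b : ℤ, z = a + b * τ}}
  one_mem' := by
    show (fun z => z) '' _ = _
    simp
  mul_mem' := by
    intro g h hg hh
    show (fun z => g (h z)) '' _ = _
    rw [← image_image (g := g) (f := h), show h '' _ = _ from hh]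
    exact hg
  inv_mem' := by
    intro g hg
    show (g⁻¹ : ℂ ≃ᵢ ℂ) '' _ = _
    conv_lhs => rw [← show g '' _ = _ from hg]
    rw [image_image]
    show (fun z => g⁻¹ (g z)) '' _ = _
    have : (fun z => g⁻¹ (g z)) = fun z => z := funext fun z => g.inv_apply_self z
    rw [this]
    simp

/-- The symmetry group of the square lattice. -/
def p4m : Subgroup (ℂ ≃ᵢ ℂ) := latticeGroup Complex.I

/-- The symmetry group of the hexagonal (triangular) lattice. -/
def p6m : Subgroup (ℂ ≃ᵢ ℂ) := latticeGroup ⟨1 / 2, Real.sqrt 3 / 2⟩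

theorem p4m_eq : p4m = H994.AP.p4m := by
  ext g
  rw [H994.AP.mem_p4m]
  rfl

theorem p6m_eq : p6m = H994.AP.p6m := by
  ext g
  rw [H994.AP.mem_p6m]
  rfl

theorem poly_of {P : Set ℂ} (h : Polygon P) : H994.AP.Poly P := by
  obtain ⟨h1, h2, h3, h4, s, hs⟩ := h
  exact ⟨⟨h1, H994.AP.lines_of_segments s hs⟩, h2, h3, h4⟩

theorem isTiling_iff (P : Set ℂ) (T : Set (Set ℂ)) : IsTiling P T ↔ H74R2.WT.IsTiling P T :=
  ⟨fun h => ⟨h.1, h.2.1, h.2.2⟩, fun h => ⟨h.1, h.2, h.3⟩⟩

theorem realizes_iff (P : Set ℂ) (G : Subgroup (ℂ ≃ᵢ ℂ)) : Realizes P G ↔ H74R2.WT.Realizes P G := by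
  constructor
  · rintro ⟨T, h1, h2, h3⟩
    exact ⟨T, (isTiling_iff P T).1 h1, h2, h3⟩
  · rintro ⟨T, h1, h2, h3⟩
    exact ⟨T, (isTiling_iff P T).2 h1, h2, h3⟩

/-- (1) No polygon has both a monohedral tiling with symmetry group of type p4m and one with
symmetry group of type p6m; (2), (3) these are wallpaper groups; (4) hence there is no all-purpose
tile. -/
theorem result :
    (∀ P : Set ℂ, Polygon P → ¬ (Realizes P p4m ∧ Realizes P p6m)) ∧
    IsWallpaper p4m ∧ IsWallpaper p6m ∧
    ¬ ∃ P : Set ℂ, Polygon P ∧ AllPurpose P := by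
  have h1 : ∀ P : Set ℂ, Polygon P → ¬ (Realizes P p4m ∧ Realizes P p6m) := by
    rintro P hP ⟨h4, h6⟩
    rw [realizes_iff] at h4 h6
    rw [p4m_eq] at h4
    rw [p6m_eq] at h6
    exact H994.AP.main P (poly_of hP) h4 h6
  have w4 : IsWallpaper p4m := by
    rw [p4m_eq]
    exact H74R2.WT.N34.wall _ _
  have w6 : IsWallpaper p6m := by
    rw [p6m_eq]
    exact H74R2.WT.N34.wall _ _
  refine ⟨h1, w4, w6, ?_⟩
  rintro ⟨P, hP, hall⟩
  exact h1 P hP ⟨hall _ w4, hall _ w6⟩

end

end Pool.Agent.Results.MP_2c7cbe_co.NoAllPurposeTile
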